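import Pool.Agent.Lib.MP_131fce_co.Flag.Reps8
import Pool.Agent.Lib.MP_131fce_co.FlagH.K10.Cl0
import Pool.Agent.Lib.MP_131fce_co.FlagH.K10.Cl1
import Pool.Agent.Lib.MP_131fce_co.FlagH.K10.Cl2

/-!
# Classification of the graphs on 9 vertices
-/

set_option autoImplicit false
set_option maxRecDepth 100000

namespace Pool.Agent.ICyc.FlagH.K10

open Pool.Agent.ICyc.FlagH Pool.Agent.ICyc.Flag

theorem okin : ∀ c ∈ reps8, OkM 8 c := okL_mem _ _ (by decide +kernel)

theorem cl_eq : reps8 = cl0 ++ cl1 ++ cl2 := by decide +kernel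

theorem stepU : ∀ H ∈ reps8, ∃ tab, clsW 8 uu 1897 H tab = true := by
  intro H hH
  rw [cl_eq] at hH
  simp only [List.mem_append, or_assoc] at hH
  rcases hH with hH | hH | hH
  · exact cs0 H hH
  · exact cs1 H hH
  · exact cs2 H hH

theorem clsU {V : Type} {A : V → V → ℕ} (h : AdjOK A) : Cls A 9 (InT uu 1897) :=
  clsW_step (by norm_num) h.1 h.2.1 h.2.2.1 h.2.2.2 (cls8 h) okin stepU

end Pool.Agent.ICyc.FlagH.K10
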