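import Pool.Agent.Lib.MP_131fce_co.FlagH.K10.TabU0

/-!
# The table of codes
-/

set_option autoImplicit false

namespace Pool.Agent.ICyc.FlagH.K10

open Pool.Agent.ICyc.FlagH

/-- the table of codes of the graphs on `9` vertices -/
def uu : FT := tabU_0

end Pool.Agent.ICyc.FlagH.K10
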