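import Pool.Agent.Lib.MP_131fce_co.FlagH.K10.Cy
import Pool.Agent.Lib.MP_131fce_co.FlagH.K10.TabU
import Pool.Agent.Lib.MP_131fce_co.FlagH.ClsW

/-!
# Hosts, part 0
-/

set_option autoImplicit false
set_option maxRecDepth 100000

namespace Pool.Agent.ICyc.FlagH.K10

open Pool.Agent.ICyc.FlagH Pool.Agent.ICyc.Flag

theorem hn0_0 : ∀ i, 0 ≤ i → i < 115 → HP 9 tb cy kk uu i :=
  glue (hostR_rng (by decide +kernel : hostR 9 tb cy kk uu 0 1 = true) rfl)
  (glue (hostR_rng (by decide +kernel : hostR 9 tb cy kk uu 1 1 = true) rfl)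
  (glue (hostR_rng (by decide +kernel : hostR 9 tb cy kk uu 2 1 = true) rfl)
  (glue (hostR_rng (by decide +kernel : hostR 9 tb cy kk uu 3 2 = true) rfl)
  (glue (hostR_rng (by decide +kernel : hostR 9 tb cy kk uu 5 2 = true) rfl)
  (glue (hostR_rng (by decide +kernel : hostR 9 tb cy kk uu 7 5 = true) rfl)
  (glue (hostR_rng (by decide +kernel : hostR 9 tb cy kk uu 12 1 = true) rfl)
  (glue (hostR_rng (by decide +kernel : hostR 9 tb cy kk uu 13 4 = true) rfl)
  (glue (hostR_rng (by decide +kernel : hostR 9 tb cy kk uu 17 6 = true) rfl)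
  (glue (hostR_rng (by decide +kernel : hostR 9 tb cy kk uu 23 3 = true) rfl)
  (glue (hostR_rng (by decide +kernel : hostR 9 tb cy kk uu 26 1 = true) rfl)
  (glue (hostR_rng (by decide +kernel : hostR 9 tb cy kk uu 27 7 = true) rfl)
  (glue (hostR_rng (by decide +kernel : hostR 9 tb cy kk uu 34 6 = true) rfl)
  (glue (hostR_rng (by decide +kernel : hostR 9 tb cy kk uu 40 5 = true) rfl)
  (glue (hostR_rng (by decide +kernel : hostR 9 tb cy kk uu 45 11 = true) rfl)
  (glue (hostR_rng (by decide +kernel : hostR 9 tb cy kk uu 56 22 = true) rfl)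
  (glue (hostR_rng (by decide +kernel : hostR 9 tb cy kk uu 78 6 = true) rfl)
  (glue (hostR_rng (by decide +kernel : hostR 9 tb cy kk uu 84 5 = true) rfl)
  (glue (hostR_rng (by decide +kernel : hostR 9 tb cy kk uu 89 7 = true) rfl)
  (hostR_rng (by decide +kernel : hostR 9 tb cy kk uu 96 19 = true) rfl)))))))))))))))))))

theorem hn0_1 : ∀ i, 0 ≤ i → i < 233 → HP 9 tb cy kk uu i :=
  glue hn0_0
  (glue (hostR_rng (by decide +kernel : hostR 9 tb cy kk uu 115 20 = true) rfl)
  (glue (hostR_rng (by decide +kernel : hostR 9 tb cy kk uu 135 12 = true) rfl)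
  (glue (hostR_rng (by decide +kernel : hostR 9 tb cy kk uu 147 7 = true) rfl)
  (glue (hostR_rng (by decide +kernel : hostR 9 tb cy kk uu 154 4 = true) rfl)
  (glue (hostR_rng (by decide +kernel : hostR 9 tb cy kk uu 158 5 = true) rfl)
  (glue (hostR_rng (by decide +kernel : hostR 9 tb cy kk uu 163 5 = true) rfl)
  (glue (hostR_rng (by decide +kernel : hostR 9 tb cy kk uu 168 4 = true) rfl)
  (glue (hostR_rng (by decide +kernel : hostR 9 tb cy kk uu 172 7 = true) rfl)
  (glue (hostR_rng (by decide +kernel : hostR 9 tb cy kk uu 179 6 = true) rfl)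
  (glue (hostR_rng (by decide +kernel : hostR 9 tb cy kk uu 185 9 = true) rfl)
  (glue (hostR_rng (by decide +kernel : hostR 9 tb cy kk uu 194 9 = true) rfl)
  (glue (hostR_rng (by decide +kernel : hostR 9 tb cy kk uu 203 1 = true) rfl)
  (glue (hostR_rng (by decide +kernel : hostR 9 tb cy kk uu 204 1 = true) rfl)
  (glue (hostR_rng (by decide +kernel : hostR 9 tb cy kk uu 205 2 = true) rfl)
  (glue (hostR_rng (by decide +kernel : hostR 9 tb cy kk uu 207 3 = true) rfl)
  (glue (hostR_rng (by decide +kernel : hostR 9 tb cy kk uu 210 7 = true) rfl)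
  (glue (hostR_rng (by decide +kernel : hostR 9 tb cy kk uu 217 7 = true) rfl)
  (glue (hostR_rng (by decide +kernel : hostR 9 tb cy kk uu 224 5 = true) rfl)
  (glue (hostR_rng (by decide +kernel : hostR 9 tb cy kk uu 229 2 = true) rfl)
  (hostR_rng (by decide +kernel : hostR 9 tb cy kk uu 231 2 = true) rfl))))))))))))))))))))

theorem hn0 : ∀ i, 0 ≤ i → i < 238 → HP 9 tb cy kk uu i :=
  glue hn0_1
  (glue (hostR_rng (by decide +kernel : hostR 9 tb cy kk uu 233 2 = true) rfl)
  (hostR_rng (by decide +kernel : hostR 9 tb cy kk uu 235 3 = true) rfl))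

end Pool.Agent.ICyc.FlagH.K10
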