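import Pool.Agent.Lib.MP_131fce_co.FlagH.K10.Cy
import Pool.Agent.Lib.MP_131fce_co.FlagH.K10.TabU
import Pool.Agent.Lib.MP_131fce_co.FlagH.ClsW

/-!
# Hosts, part 1
-/

set_option autoImplicit false
set_option maxRecDepth 100000

namespace Pool.Agent.ICyc.FlagH.K10

open Pool.Agent.ICyc.FlagH Pool.Agent.ICyc.Flag

theorem hn1_0 : ∀ i, 238 ≤ i → i < 313 → HP 9 tb cy kk uu i :=
  glue (hostR_rng (by decide +kernel : hostR 9 tb cy kk uu 238 5 = true) rfl)
  (glue (hostR_rng (by decide +kernel : hostR 9 tb cy kk uu 243 6 = true) rfl)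
  (glue (hostR_rng (by decide +kernel : hostR 9 tb cy kk uu 249 11 = true) rfl)
  (glue (hostR_rng (by decide +kernel : hostR 9 tb cy kk uu 260 13 = true) rfl)
  (glue (hostR_rng (by decide +kernel : hostR 9 tb cy kk uu 273 14 = true) rfl)
  (glue (hostR_rng (by decide +kernel : hostR 9 tb cy kk uu 287 1 = true) rfl)
  (glue (hostR_rng (by decide +kernel : hostR 9 tb cy kk uu 288 1 = true) rfl)
  (glue (hostR_rng (by decide +kernel : hostR 9 tb cy kk uu 289 1 = true) rfl)
  (glue (hostR_rng (by decide +kernel : hostR 9 tb cy kk uu 290 1 = true) rfl)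
  (glue (hostR_rng (by decide +kernel : hostR 9 tb cy kk uu 291 1 = true) rfl)
  (glue (hostR_rng (by decide +kernel : hostR 9 tb cy kk uu 292 3 = true) rfl)
  (glue (hostR_rng (by decide +kernel : hostR 9 tb cy kk uu 295 2 = true) rfl)
  (glue (hostR_rng (by decide +kernel : hostR 9 tb cy kk uu 297 1 = true) rfl)
  (glue (hostR_rng (by decide +kernel : hostR 9 tb cy kk uu 298 1 = true) rfl)
  (glue (hostR_rng (by decide +kernel : hostR 9 tb cy kk uu 299 2 = true) rfl)
  (glue (hostR_rng (by decide +kernel : hostR 9 tb cy kk uu 301 4 = true) rfl)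
  (glue (hostR_rng (by decide +kernel : hostR 9 tb cy kk uu 305 2 = true) rfl)
  (glue (hostR_rng (by decide +kernel : hostR 9 tb cy kk uu 307 1 = true) rfl)
  (glue (hostR_rng (by decide +kernel : hostR 9 tb cy kk uu 308 2 = true) rfl)
  (hostR_rng (by decide +kernel : hostR 9 tb cy kk uu 310 3 = true) rfl)))))))))))))))))))

theorem hn1_1 : ∀ i, 238 ≤ i → i < 493 → HP 9 tb cy kk uu i :=
  glue hn1_0
  (glue (hostR_rng (by decide +kernel : hostR 9 tb cy kk uu 313 3 = true) rfl)
  (glue (hostR_rng (by decide +kernel : hostR 9 tb cy kk uu 316 3 = true) rfl)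
  (glue (hostR_rng (by decide +kernel : hostR 9 tb cy kk uu 319 11 = true) rfl)
  (glue (hostR_rng (by decide +kernel : hostR 9 tb cy kk uu 330 2 = true) rfl)
  (glue (hostR_rng (by decide +kernel : hostR 9 tb cy kk uu 332 2 = true) rfl)
  (glue (hostR_rng (by decide +kernel : hostR 9 tb cy kk uu 334 3 = true) rfl)
  (glue (hostR_rng (by decide +kernel : hostR 9 tb cy kk uu 337 11 = true) rfl)
  (glue (hostR_rng (by decide +kernel : hostR 9 tb cy kk uu 348 10 = true) rfl)
  (glue (hostR_rng (by decide +kernel : hostR 9 tb cy kk uu 358 11 = true) rfl)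
  (glue (hostR_rng (by decide +kernel : hostR 9 tb cy kk uu 369 8 = true) rfl)
  (glue (hostR_rng (by decide +kernel : hostR 9 tb cy kk uu 377 10 = true) rfl)
  (glue (hostR_rng (by decide +kernel : hostR 9 tb cy kk uu 387 16 = true) rfl)
  (glue (hostR_rng (by decide +kernel : hostR 9 tb cy kk uu 403 12 = true) rfl)
  (glue (hostR_rng (by decide +kernel : hostR 9 tb cy kk uu 415 6 = true) rfl)
  (glue (hostR_rng (by decide +kernel : hostR 9 tb cy kk uu 421 11 = true) rfl)
  (glue (hostR_rng (by decide +kernel : hostR 9 tb cy kk uu 432 7 = true) rfl)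
  (glue (hostR_rng (by decide +kernel : hostR 9 tb cy kk uu 439 19 = true) rfl)
  (glue (hostR_rng (by decide +kernel : hostR 9 tb cy kk uu 458 26 = true) rfl)
  (glue (hostR_rng (by decide +kernel : hostR 9 tb cy kk uu 484 8 = true) rfl)
  (hostR_rng (by decide +kernel : hostR 9 tb cy kk uu 492 1 = true) rfl))))))))))))))))))))

theorem hn1 : ∀ i, 238 ≤ i → i < 519 → HP 9 tb cy kk uu i :=
  glue hn1_1
  (glue (hostR_rng (by decide +kernel : hostR 9 tb cy kk uu 493 4 = true) rfl)
  (glue (hostR_rng (by decide +kernel : hostR 9 tb cy kk uu 497 4 = true) rfl)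
  (glue (hostR_rng (by decide +kernel : hostR 9 tb cy kk uu 501 2 = true) rfl)
  (glue (hostR_rng (by decide +kernel : hostR 9 tb cy kk uu 503 7 = true) rfl)
  (glue (hostR_rng (by decide +kernel : hostR 9 tb cy kk uu 510 3 = true) rfl)
  (glue (hostR_rng (by decide +kernel : hostR 9 tb cy kk uu 513 2 = true) rfl)
  (hostR_rng (by decide +kernel : hostR 9 tb cy kk uu 515 4 = true) rfl)))))))

end Pool.Agent.ICyc.FlagH.K10
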