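import Pool.Agent.Lib.MP_131fce_co.FlagH.K10.Cy
import Pool.Agent.Lib.MP_131fce_co.FlagH.K10.TabU
import Pool.Agent.Lib.MP_131fce_co.FlagH.ClsW

/-!
# Hosts, part 2
-/

set_option autoImplicit false
set_option maxRecDepth 100000

namespace Pool.Agent.ICyc.FlagH.K10

open Pool.Agent.ICyc.FlagH Pool.Agent.ICyc.Flag

theorem hn2_0 : ∀ i, 519 ≤ i → i < 718 → HP 9 tb cy kk uu i :=
  glue (hostR_rng (by decide +kernel : hostR 9 tb cy kk uu 519 4 = true) rfl)
  (glue (hostR_rng (by decide +kernel : hostR 9 tb cy kk uu 523 9 = true) rfl)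
  (glue (hostR_rng (by decide +kernel : hostR 9 tb cy kk uu 532 6 = true) rfl)
  (glue (hostR_rng (by decide +kernel : hostR 9 tb cy kk uu 538 12 = true) rfl)
  (glue (hostR_rng (by decide +kernel : hostR 9 tb cy kk uu 550 6 = true) rfl)
  (glue (hostR_rng (by decide +kernel : hostR 9 tb cy kk uu 556 15 = true) rfl)
  (glue (hostR_rng (by decide +kernel : hostR 9 tb cy kk uu 571 9 = true) rfl)
  (glue (hostR_rng (by decide +kernel : hostR 9 tb cy kk uu 580 26 = true) rfl)
  (glue (hostR_rng (by decide +kernel : hostR 9 tb cy kk uu 606 21 = true) rfl)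
  (glue (hostR_rng (by decide +kernel : hostR 9 tb cy kk uu 627 14 = true) rfl)
  (glue (hostR_rng (by decide +kernel : hostR 9 tb cy kk uu 641 6 = true) rfl)
  (glue (hostR_rng (by decide +kernel : hostR 9 tb cy kk uu 647 8 = true) rfl)
  (glue (hostR_rng (by decide +kernel : hostR 9 tb cy kk uu 655 11 = true) rfl)
  (glue (hostR_rng (by decide +kernel : hostR 9 tb cy kk uu 666 17 = true) rfl)
  (glue (hostR_rng (by decide +kernel : hostR 9 tb cy kk uu 683 14 = true) rfl)
  (glue (hostR_rng (by decide +kernel : hostR 9 tb cy kk uu 697 12 = true) rfl)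
  (glue (hostR_rng (by decide +kernel : hostR 9 tb cy kk uu 709 1 = true) rfl)
  (glue (hostR_rng (by decide +kernel : hostR 9 tb cy kk uu 710 2 = true) rfl)
  (glue (hostR_rng (by decide +kernel : hostR 9 tb cy kk uu 712 2 = true) rfl)
  (hostR_rng (by decide +kernel : hostR 9 tb cy kk uu 714 4 = true) rfl)))))))))))))))))))

theorem hn2 : ∀ i, 519 ≤ i → i < 765 → HP 9 tb cy kk uu i :=
  glue hn2_0
  (glue (hostR_rng (by decide +kernel : hostR 9 tb cy kk uu 718 5 = true) rfl)
  (glue (hostR_rng (by decide +kernel : hostR 9 tb cy kk uu 723 2 = true) rfl)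
  (glue (hostR_rng (by decide +kernel : hostR 9 tb cy kk uu 725 2 = true) rfl)
  (glue (hostR_rng (by decide +kernel : hostR 9 tb cy kk uu 727 1 = true) rfl)
  (glue (hostR_rng (by decide +kernel : hostR 9 tb cy kk uu 728 2 = true) rfl)
  (glue (hostR_rng (by decide +kernel : hostR 9 tb cy kk uu 730 1 = true) rfl)
  (glue (hostR_rng (by decide +kernel : hostR 9 tb cy kk uu 731 1 = true) rfl)
  (glue (hostR_rng (by decide +kernel : hostR 9 tb cy kk uu 732 1 = true) rfl)
  (glue (hostR_rng (by decide +kernel : hostR 9 tb cy kk uu 733 1 = true) rfl)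
  (glue (hostR_rng (by decide +kernel : hostR 9 tb cy kk uu 734 1 = true) rfl)
  (glue (hostR_rng (by decide +kernel : hostR 9 tb cy kk uu 735 1 = true) rfl)
  (glue (hostR_rng (by decide +kernel : hostR 9 tb cy kk uu 736 1 = true) rfl)
  (glue (hostR_rng (by decide +kernel : hostR 9 tb cy kk uu 737 4 = true) rfl)
  (glue (hostR_rng (by decide +kernel : hostR 9 tb cy kk uu 741 4 = true) rfl)
  (glue (hostR_rng (by decide +kernel : hostR 9 tb cy kk uu 745 5 = true) rfl)
  (glue (hostR_rng (by decide +kernel : hostR 9 tb cy kk uu 750 8 = true) rfl)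
  (glue (hostR_rng (by decide +kernel : hostR 9 tb cy kk uu 758 2 = true) rfl)
  (glue (hostR_rng (by decide +kernel : hostR 9 tb cy kk uu 760 1 = true) rfl)
  (hostR_rng (by decide +kernel : hostR 9 tb cy kk uu 761 4 = true) rfl)))))))))))))))))))

end Pool.Agent.ICyc.FlagH.K10
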