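import Pool.Agent.Lib.MP_131fce_co.FlagH.K10.Cy
import Pool.Agent.Lib.MP_131fce_co.FlagH.K10.TabU
import Pool.Agent.Lib.MP_131fce_co.FlagH.ClsW

/-!
# Hosts, part 3
-/

set_option autoImplicit false
set_option maxRecDepth 100000

namespace Pool.Agent.ICyc.FlagH.K10

open Pool.Agent.ICyc.FlagH Pool.Agent.ICyc.Flag

theorem hn3_0 : ∀ i, 765 ≤ i → i < 864 → HP 9 tb cy kk uu i :=
  glue (hostR_rng (by decide +kernel : hostR 9 tb cy kk uu 765 2 = true) rfl)
  (glue (hostR_rng (by decide +kernel : hostR 9 tb cy kk uu 767 2 = true) rfl)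
  (glue (hostR_rng (by decide +kernel : hostR 9 tb cy kk uu 769 1 = true) rfl)
  (glue (hostR_rng (by decide +kernel : hostR 9 tb cy kk uu 770 4 = true) rfl)
  (glue (hostR_rng (by decide +kernel : hostR 9 tb cy kk uu 774 11 = true) rfl)
  (glue (hostR_rng (by decide +kernel : hostR 9 tb cy kk uu 785 5 = true) rfl)
  (glue (hostR_rng (by decide +kernel : hostR 9 tb cy kk uu 790 8 = true) rfl)
  (glue (hostR_rng (by decide +kernel : hostR 9 tb cy kk uu 798 10 = true) rfl)
  (glue (hostR_rng (by decide +kernel : hostR 9 tb cy kk uu 808 14 = true) rfl)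
  (glue (hostR_rng (by decide +kernel : hostR 9 tb cy kk uu 822 1 = true) rfl)
  (glue (hostR_rng (by decide +kernel : hostR 9 tb cy kk uu 823 1 = true) rfl)
  (glue (hostR_rng (by decide +kernel : hostR 9 tb cy kk uu 824 5 = true) rfl)
  (glue (hostR_rng (by decide +kernel : hostR 9 tb cy kk uu 829 6 = true) rfl)
  (glue (hostR_rng (by decide +kernel : hostR 9 tb cy kk uu 835 4 = true) rfl)
  (glue (hostR_rng (by decide +kernel : hostR 9 tb cy kk uu 839 9 = true) rfl)
  (glue (hostR_rng (by decide +kernel : hostR 9 tb cy kk uu 848 7 = true) rfl)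
  (glue (hostR_rng (by decide +kernel : hostR 9 tb cy kk uu 855 2 = true) rfl)
  (glue (hostR_rng (by decide +kernel : hostR 9 tb cy kk uu 857 1 = true) rfl)
  (glue (hostR_rng (by decide +kernel : hostR 9 tb cy kk uu 858 4 = true) rfl)
  (hostR_rng (by decide +kernel : hostR 9 tb cy kk uu 862 2 = true) rfl)))))))))))))))))))

theorem hn3_1 : ∀ i, 765 ≤ i → i < 1015 → HP 9 tb cy kk uu i :=
  glue hn3_0
  (glue (hostR_rng (by decide +kernel : hostR 9 tb cy kk uu 864 4 = true) rfl)
  (glue (hostR_rng (by decide +kernel : hostR 9 tb cy kk uu 868 4 = true) rfl)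
  (glue (hostR_rng (by decide +kernel : hostR 9 tb cy kk uu 872 1 = true) rfl)
  (glue (hostR_rng (by decide +kernel : hostR 9 tb cy kk uu 873 1 = true) rfl)
  (glue (hostR_rng (by decide +kernel : hostR 9 tb cy kk uu 874 3 = true) rfl)
  (glue (hostR_rng (by decide +kernel : hostR 9 tb cy kk uu 877 13 = true) rfl)
  (glue (hostR_rng (by decide +kernel : hostR 9 tb cy kk uu 890 12 = true) rfl)
  (glue (hostR_rng (by decide +kernel : hostR 9 tb cy kk uu 902 9 = true) rfl)
  (glue (hostR_rng (by decide +kernel : hostR 9 tb cy kk uu 911 14 = true) rfl)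
  (glue (hostR_rng (by decide +kernel : hostR 9 tb cy kk uu 925 14 = true) rfl)
  (glue (hostR_rng (by decide +kernel : hostR 9 tb cy kk uu 939 5 = true) rfl)
  (glue (hostR_rng (by decide +kernel : hostR 9 tb cy kk uu 944 12 = true) rfl)
  (glue (hostR_rng (by decide +kernel : hostR 9 tb cy kk uu 956 1 = true) rfl)
  (glue (hostR_rng (by decide +kernel : hostR 9 tb cy kk uu 957 4 = true) rfl)
  (glue (hostR_rng (by decide +kernel : hostR 9 tb cy kk uu 961 4 = true) rfl)
  (glue (hostR_rng (by decide +kernel : hostR 9 tb cy kk uu 965 11 = true) rfl)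
  (glue (hostR_rng (by decide +kernel : hostR 9 tb cy kk uu 976 22 = true) rfl)
  (glue (hostR_rng (by decide +kernel : hostR 9 tb cy kk uu 998 8 = true) rfl)
  (glue (hostR_rng (by decide +kernel : hostR 9 tb cy kk uu 1006 8 = true) rfl)
  (hostR_rng (by decide +kernel : hostR 9 tb cy kk uu 1014 1 = true) rfl))))))))))))))))))))

theorem hn3 : ∀ i, 765 ≤ i → i < 1018 → HP 9 tb cy kk uu i :=
  glue hn3_1
  (glue (hostR_rng (by decide +kernel : hostR 9 tb cy kk uu 1015 1 = true) rfl)
  (glue (hostR_rng (by decide +kernel : hostR 9 tb cy kk uu 1016 1 = true) rfl)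
  (hostR_rng (by decide +kernel : hostR 9 tb cy kk uu 1017 1 = true) rfl)))

end Pool.Agent.ICyc.FlagH.K10
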