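import Pool.Agent.Lib.MP_131fce_co.FlagH.K10.Cy
import Pool.Agent.Lib.MP_131fce_co.FlagH.K10.TabU
import Pool.Agent.Lib.MP_131fce_co.FlagH.ClsW

/-!
# Hosts, part 5
-/

set_option autoImplicit false
set_option maxRecDepth 100000

namespace Pool.Agent.ICyc.FlagH.K10

open Pool.Agent.ICyc.FlagH Pool.Agent.ICyc.Flag

theorem hn5_0 : ∀ i, 1123 ≤ i → i < 1291 → HP 9 tb cy kk uu i :=
  glue (hostR_rng (by decide +kernel : hostR 9 tb cy kk uu 1123 12 = true) rfl)
  (glue (hostR_rng (by decide +kernel : hostR 9 tb cy kk uu 1135 8 = true) rfl)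
  (glue (hostR_rng (by decide +kernel : hostR 9 tb cy kk uu 1143 18 = true) rfl)
  (glue (hostR_rng (by decide +kernel : hostR 9 tb cy kk uu 1161 24 = true) rfl)
  (glue (hostR_rng (by decide +kernel : hostR 9 tb cy kk uu 1185 3 = true) rfl)
  (glue (hostR_rng (by decide +kernel : hostR 9 tb cy kk uu 1188 1 = true) rfl)
  (glue (hostR_rng (by decide +kernel : hostR 9 tb cy kk uu 1189 1 = true) rfl)
  (glue (hostR_rng (by decide +kernel : hostR 9 tb cy kk uu 1190 2 = true) rfl)
  (glue (hostR_rng (by decide +kernel : hostR 9 tb cy kk uu 1192 3 = true) rfl)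
  (glue (hostR_rng (by decide +kernel : hostR 9 tb cy kk uu 1195 2 = true) rfl)
  (glue (hostR_rng (by decide +kernel : hostR 9 tb cy kk uu 1197 5 = true) rfl)
  (glue (hostR_rng (by decide +kernel : hostR 9 tb cy kk uu 1202 8 = true) rfl)
  (glue (hostR_rng (by decide +kernel : hostR 9 tb cy kk uu 1210 6 = true) rfl)
  (glue (hostR_rng (by decide +kernel : hostR 9 tb cy kk uu 1216 6 = true) rfl)
  (glue (hostR_rng (by decide +kernel : hostR 9 tb cy kk uu 1222 19 = true) rfl)
  (glue (hostR_rng (by decide +kernel : hostR 9 tb cy kk uu 1241 14 = true) rfl)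
  (glue (hostR_rng (by decide +kernel : hostR 9 tb cy kk uu 1255 3 = true) rfl)
  (glue (hostR_rng (by decide +kernel : hostR 9 tb cy kk uu 1258 6 = true) rfl)
  (glue (hostR_rng (by decide +kernel : hostR 9 tb cy kk uu 1264 16 = true) rfl)
  (hostR_rng (by decide +kernel : hostR 9 tb cy kk uu 1280 11 = true) rfl)))))))))))))))))))

theorem hn5_1 : ∀ i, 1123 ≤ i → i < 1409 → HP 9 tb cy kk uu i :=
  glue hn5_0
  (glue (hostR_rng (by decide +kernel : hostR 9 tb cy kk uu 1291 12 = true) rfl)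
  (glue (hostR_rng (by decide +kernel : hostR 9 tb cy kk uu 1303 28 = true) rfl)
  (glue (hostR_rng (by decide +kernel : hostR 9 tb cy kk uu 1331 15 = true) rfl)
  (glue (hostR_rng (by decide +kernel : hostR 9 tb cy kk uu 1346 5 = true) rfl)
  (glue (hostR_rng (by decide +kernel : hostR 9 tb cy kk uu 1351 2 = true) rfl)
  (glue (hostR_rng (by decide +kernel : hostR 9 tb cy kk uu 1353 3 = true) rfl)
  (glue (hostR_rng (by decide +kernel : hostR 9 tb cy kk uu 1356 5 = true) rfl)
  (glue (hostR_rng (by decide +kernel : hostR 9 tb cy kk uu 1361 1 = true) rfl)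
  (glue (hostR_rng (by decide +kernel : hostR 9 tb cy kk uu 1362 1 = true) rfl)
  (glue (hostR_rng (by decide +kernel : hostR 9 tb cy kk uu 1363 1 = true) rfl)
  (glue (hostR_rng (by decide +kernel : hostR 9 tb cy kk uu 1364 1 = true) rfl)
  (glue (hostR_rng (by decide +kernel : hostR 9 tb cy kk uu 1365 2 = true) rfl)
  (glue (hostR_rng (by decide +kernel : hostR 9 tb cy kk uu 1367 5 = true) rfl)
  (glue (hostR_rng (by decide +kernel : hostR 9 tb cy kk uu 1372 4 = true) rfl)
  (glue (hostR_rng (by decide +kernel : hostR 9 tb cy kk uu 1376 4 = true) rfl)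
  (glue (hostR_rng (by decide +kernel : hostR 9 tb cy kk uu 1380 4 = true) rfl)
  (glue (hostR_rng (by decide +kernel : hostR 9 tb cy kk uu 1384 5 = true) rfl)
  (glue (hostR_rng (by decide +kernel : hostR 9 tb cy kk uu 1389 5 = true) rfl)
  (glue (hostR_rng (by decide +kernel : hostR 9 tb cy kk uu 1394 6 = true) rfl)
  (hostR_rng (by decide +kernel : hostR 9 tb cy kk uu 1400 9 = true) rfl))))))))))))))))))))

theorem hn5 : ∀ i, 1123 ≤ i → i < 1495 → HP 9 tb cy kk uu i :=
  glue hn5_1
  (glue (hostR_rng (by decide +kernel : hostR 9 tb cy kk uu 1409 12 = true) rfl)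
  (glue (hostR_rng (by decide +kernel : hostR 9 tb cy kk uu 1421 20 = true) rfl)
  (glue (hostR_rng (by decide +kernel : hostR 9 tb cy kk uu 1441 19 = true) rfl)
  (glue (hostR_rng (by decide +kernel : hostR 9 tb cy kk uu 1460 17 = true) rfl)
  (glue (hostR_rng (by decide +kernel : hostR 9 tb cy kk uu 1477 4 = true) rfl)
  (glue (hostR_rng (by decide +kernel : hostR 9 tb cy kk uu 1481 5 = true) rfl)
  (hostR_rng (by decide +kernel : hostR 9 tb cy kk uu 1486 9 = true) rfl)))))))

end Pool.Agent.ICyc.FlagH.K10
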