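import Pool.Agent.Lib.MP_131fce_co.FlagH.K10.Cy
import Pool.Agent.Lib.MP_131fce_co.FlagH.K10.TabU
import Pool.Agent.Lib.MP_131fce_co.FlagH.ClsW

/-!
# Hosts, part 6
-/

set_option autoImplicit false
set_option maxRecDepth 100000

namespace Pool.Agent.ICyc.FlagH.K10

open Pool.Agent.ICyc.FlagH Pool.Agent.ICyc.Flag

theorem hn6_0 : ∀ i, 1495 ≤ i → i < 1558 → HP 9 tb cy kk uu i :=
  glue (hostR_rng (by decide +kernel : hostR 9 tb cy kk uu 1495 12 = true) rfl)
  (glue (hostR_rng (by decide +kernel : hostR 9 tb cy kk uu 1507 18 = true) rfl)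
  (glue (hostR_rng (by decide +kernel : hostR 9 tb cy kk uu 1525 10 = true) rfl)
  (glue (hostR_rng (by decide +kernel : hostR 9 tb cy kk uu 1535 1 = true) rfl)
  (glue (hostR_rng (by decide +kernel : hostR 9 tb cy kk uu 1536 1 = true) rfl)
  (glue (hostR_rng (by decide +kernel : hostR 9 tb cy kk uu 1537 1 = true) rfl)
  (glue (hostR_rng (by decide +kernel : hostR 9 tb cy kk uu 1538 1 = true) rfl)
  (glue (hostR_rng (by decide +kernel : hostR 9 tb cy kk uu 1539 1 = true) rfl)
  (glue (hostR_rng (by decide +kernel : hostR 9 tb cy kk uu 1540 1 = true) rfl)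
  (glue (hostR_rng (by decide +kernel : hostR 9 tb cy kk uu 1541 3 = true) rfl)
  (glue (hostR_rng (by decide +kernel : hostR 9 tb cy kk uu 1544 2 = true) rfl)
  (glue (hostR_rng (by decide +kernel : hostR 9 tb cy kk uu 1546 1 = true) rfl)
  (glue (hostR_rng (by decide +kernel : hostR 9 tb cy kk uu 1547 1 = true) rfl)
  (glue (hostR_rng (by decide +kernel : hostR 9 tb cy kk uu 1548 1 = true) rfl)
  (glue (hostR_rng (by decide +kernel : hostR 9 tb cy kk uu 1549 1 = true) rfl)
  (glue (hostR_rng (by decide +kernel : hostR 9 tb cy kk uu 1550 1 = true) rfl)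
  (glue (hostR_rng (by decide +kernel : hostR 9 tb cy kk uu 1551 1 = true) rfl)
  (glue (hostR_rng (by decide +kernel : hostR 9 tb cy kk uu 1552 2 = true) rfl)
  (glue (hostR_rng (by decide +kernel : hostR 9 tb cy kk uu 1554 2 = true) rfl)
  (hostR_rng (by decide +kernel : hostR 9 tb cy kk uu 1556 2 = true) rfl)))))))))))))))))))

theorem hn6_1 : ∀ i, 1495 ≤ i → i < 1655 → HP 9 tb cy kk uu i :=
  glue hn6_0
  (glue (hostR_rng (by decide +kernel : hostR 9 tb cy kk uu 1558 2 = true) rfl)
  (glue (hostR_rng (by decide +kernel : hostR 9 tb cy kk uu 1560 3 = true) rfl)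
  (glue (hostR_rng (by decide +kernel : hostR 9 tb cy kk uu 1563 2 = true) rfl)
  (glue (hostR_rng (by decide +kernel : hostR 9 tb cy kk uu 1565 2 = true) rfl)
  (glue (hostR_rng (by decide +kernel : hostR 9 tb cy kk uu 1567 2 = true) rfl)
  (glue (hostR_rng (by decide +kernel : hostR 9 tb cy kk uu 1569 4 = true) rfl)
  (glue (hostR_rng (by decide +kernel : hostR 9 tb cy kk uu 1573 5 = true) rfl)
  (glue (hostR_rng (by decide +kernel : hostR 9 tb cy kk uu 1578 3 = true) rfl)
  (glue (hostR_rng (by decide +kernel : hostR 9 tb cy kk uu 1581 1 = true) rfl)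
  (glue (hostR_rng (by decide +kernel : hostR 9 tb cy kk uu 1582 1 = true) rfl)
  (glue (hostR_rng (by decide +kernel : hostR 9 tb cy kk uu 1583 2 = true) rfl)
  (glue (hostR_rng (by decide +kernel : hostR 9 tb cy kk uu 1585 4 = true) rfl)
  (glue (hostR_rng (by decide +kernel : hostR 9 tb cy kk uu 1589 4 = true) rfl)
  (glue (hostR_rng (by decide +kernel : hostR 9 tb cy kk uu 1593 4 = true) rfl)
  (glue (hostR_rng (by decide +kernel : hostR 9 tb cy kk uu 1597 5 = true) rfl)
  (glue (hostR_rng (by decide +kernel : hostR 9 tb cy kk uu 1602 8 = true) rfl)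
  (glue (hostR_rng (by decide +kernel : hostR 9 tb cy kk uu 1610 10 = true) rfl)
  (glue (hostR_rng (by decide +kernel : hostR 9 tb cy kk uu 1620 10 = true) rfl)
  (glue (hostR_rng (by decide +kernel : hostR 9 tb cy kk uu 1630 12 = true) rfl)
  (hostR_rng (by decide +kernel : hostR 9 tb cy kk uu 1642 13 = true) rfl))))))))))))))))))))

theorem hn6 : ∀ i, 1495 ≤ i → i < 1729 → HP 9 tb cy kk uu i :=
  glue hn6_1
  (glue (hostR_rng (by decide +kernel : hostR 9 tb cy kk uu 1655 18 = true) rfl)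
  (glue (hostR_rng (by decide +kernel : hostR 9 tb cy kk uu 1673 26 = true) rfl)
  (glue (hostR_rng (by decide +kernel : hostR 9 tb cy kk uu 1699 6 = true) rfl)
  (glue (hostR_rng (by decide +kernel : hostR 9 tb cy kk uu 1705 15 = true) rfl)
  (hostR_rng (by decide +kernel : hostR 9 tb cy kk uu 1720 9 = true) rfl)))))

end Pool.Agent.ICyc.FlagH.K10
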