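import Pool.Agent.Lib.MP_131fce_co.FlagH.K10.Pl0
import Pool.Agent.Lib.MP_131fce_co.FlagH.K10.Pl1

/-!
# The low order part is positive semidefinite
-/

set_option autoImplicit false
set_option maxRecDepth 100000

namespace Pool.Agent.ICyc.FlagH.K10

open Pool.Agent.ICyc.Flag

theorem lo_good : lo.good :=
  ⟨⟨gml0, ⟨gml1, trivial⟩⟩, trivial⟩

end Pool.Agent.ICyc.FlagH.K10
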