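import Pool.Agent.Lib.MP_131fce_co.FlagH.K10.Zd

/-!
# Types without a matrix, part 0
-/

set_option autoImplicit false
set_option maxRecDepth 100000

namespace Pool.Agent.ICyc.FlagH.K10

open Pool.Agent.ICyc.FlagH Pool.Agent.ICyc.Flag

/-- codes and values -/
def zl0_0 : List (ℕ × ℕ) :=
  [(0x0, 7813831492672124833)]

/-- codes and values -/
def zl0_1 : List (ℕ × ℕ) :=
  [(0x400080000000000000000000000000, 7813831492672124833)]

/-- codes and values -/
def zl0_2 : List (ℕ × ℕ) :=
  [(0x600080008000000000000000000000, 7813831492672124833)]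

/-- codes and values -/
def zl0_3 : List (ℕ × ℕ) :=
  [(0x700080008000800000000000000000, 7813831492672124833)]

/-- codes and values -/
def zl0_4 : List (ℕ × ℕ) :=
  [(0x780080008000800080000000000000, 7813831492672124833)]

/-- codes and values -/
def zl0_5 : List (ℕ × ℕ) :=
  [(0x7c0080008000800080008000000000, 7813831492672124833)]

/-- codes and values -/
def zl0_6 : List (ℕ × ℕ) :=
  [(0x7e0080008000800080008000800000, 7813831492672124833)]

/-- codes and values -/
def zl0_7 : List (ℕ × ℕ) :=
  [(0x7f0080008000800080008000800080, 7813831492672124833)]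

/-- codes and values -/
def zl0_8 : List (ℕ × ℕ) :=
  [(0x400080001000200000000000000000, 7813831492672124833)]

/-- codes and values -/
def zl0_9 : List (ℕ × ℕ) :=
  [(0x600080008000080010000000000000, 7813831492672124833)]

/-- codes and values -/
def zl0_10 : List (ℕ × ℕ) :=
  [(0x700080008000800004000800000000, 7813831492672124833)]

/-- codes and values -/
def zl0_11 : List (ℕ × ℕ) :=
  [(0x780080008000800080000200040000, 7813831492672124833)]

/-- codes and values -/
def zl0_12 : List (ℕ × ℕ) :=
  [(0x7c0080008000800080008000010002, 7813831492672124833)]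

/-- codes and values -/
def zl0_13 : List (ℕ × ℕ) :=
  [(0x5000a0004000800000000000000000, 7813831492672124833)]

/-- codes and values -/
def zl0_14 : List (ℕ × ℕ) :=
  [(0x700088008000800040000000000000, 7813831492672124833)]

/-- codes and values -/
def zl0_15 : List (ℕ × ℕ) :=
  [(0x780084008000800080004000000000, 7813831492672124833)]

/-- codes and values -/
def zl0_16 : List (ℕ × ℕ) :=
  [(0x7c0082008000800080008000400000, 7813831492672124833)]

/-- codes and values -/
def zl0_17 : List (ℕ × ℕ) :=
  [(0x7e0081008000800080008000800040, 7813831492672124833)]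

/-- the types of this module -/
def zg0 : List ℕ :=
  fsts zl0_0 ++ (fsts zl0_1 ++ (fsts zl0_2 ++ (fsts zl0_3 ++ (fsts zl0_4 ++ (fsts zl0_5 ++ (fsts zl0_6 ++ (fsts zl0_7 ++ (fsts zl0_8 ++ (fsts zl0_9 ++ (fsts zl0_10 ++ (fsts zl0_11 ++ (fsts zl0_12 ++ (fsts zl0_13 ++ (fsts zl0_14 ++ (fsts zl0_15 ++ (fsts zl0_16 ++ (fsts zl0_17)))))))))))))))))

theorem zok0 : ∀ c ∈ zg0, TPr c :=
  faa (ztr (by decide +kernel : zeroL 8 tb lo off zl0_0 = true))
    (faa (ztr (by decide +kernel : zeroL 8 tb lo off zl0_1 = true))
    (faa (ztr (by decide +kernel : zeroL 8 tb lo off zl0_2 = true))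
    (faa (ztr (by decide +kernel : zeroL 8 tb lo off zl0_3 = true))
    (faa (ztr (by decide +kernel : zeroL 8 tb lo off zl0_4 = true))
    (faa (ztr (by decide +kernel : zeroL 8 tb lo off zl0_5 = true))
    (faa (ztr (by decide +kernel : zeroL 8 tb lo off zl0_6 = true))
    (faa (ztr (by decide +kernel : zeroL 8 tb lo off zl0_7 = true))
    (faa (ztr (by decide +kernel : zeroL 8 tb lo off zl0_8 = true))
    (faa (ztr (by decide +kernel : zeroL 8 tb lo off zl0_9 = true))
    (faa (ztr (by decide +kernel : zeroL 8 tb lo off zl0_10 = true))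
    (faa (ztr (by decide +kernel : zeroL 8 tb lo off zl0_11 = true))
    (faa (ztr (by decide +kernel : zeroL 8 tb lo off zl0_12 = true))
    (faa (ztr (by decide +kernel : zeroL 8 tb lo off zl0_13 = true))
    (faa (ztr (by decide +kernel : zeroL 8 tb lo off zl0_14 = true))
    (faa (ztr (by decide +kernel : zeroL 8 tb lo off zl0_15 = true))
    (faa (ztr (by decide +kernel : zeroL 8 tb lo off zl0_16 = true))
    ((ztr (by decide +kernel : zeroL 8 tb lo off zl0_17 = true)))))))))))))))))))

end Pool.Agent.ICyc.FlagH.K10
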