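import Pool.Agent.Lib.MP_131fce_co.FlagH.K10.Zd

/-!
# Types without a matrix, part 1
-/

set_option autoImplicit false
set_option maxRecDepth 100000

namespace Pool.Agent.ICyc.FlagH.K10

open Pool.Agent.ICyc.FlagH Pool.Agent.ICyc.Flag

/-- codes and values -/
def zl1_0 : List (ℕ × ℕ) :=
  [(0x3c0003008000800080008000400040, 7813831492672124833)]

/-- codes and values -/
def zl1_1 : List (ℕ × ℕ) :=
  [(0x5c00a0004200800080008000200000, 7813831492672124833)]

/-- codes and values -/
def zl1_2 : List (ℕ × ℕ) :=
  [(0x5e00a0004100800080008000800020, 7813831492672124833)]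

/-- codes and values -/
def zl1_3 : List (ℕ × ℕ) :=
  [(0x5000a0005000a00000000000000000, 7813831492672124833)]

/-- codes and values -/
def zl1_4 : List (ℕ × ℕ) :=
  [(0x680090009000600080000000000000, 7813831492672124833)]

/-- codes and values -/
def zl1_5 : List (ℕ × ℕ) :=
  [(0x6c0090009000600080008000000000, 7813831492672124833)]

/-- codes and values -/
def zl1_6 : List (ℕ × ℕ) :=
  [(0x6e0090009000600080008000800000, 7813831492672124833)]

/-- codes and values -/
def zl1_7 : List (ℕ × ℕ) :=
  [(0x6f0090009000600080008000800080, 7813831492672124833)]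

/-- codes and values -/
def zl1_8 : List (ℕ × ℕ) :=
  [(0x4c00b0004000400080008000000000, 7813831492672124833)]

/-- codes and values -/
def zl1_9 : List (ℕ × ℕ) :=
  [(0x780086008000800080004000400000, 7813831492672124833)]

/-- codes and values -/
def zl1_10 : List (ℕ × ℕ) :=
  [(0x7c0083008000800080008000400040, 7813831492672124833)]

/-- codes and values -/
def zl1_11 : List (ℕ × ℕ) :=
  [(0x70038004000400040008000800080, 7813831492672124833)]

/-- codes and values -/
def zl1_12 : List (ℕ × ℕ) :=
  [(0x26003800c000400040008000800000, 7813831492672124833)]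

/-- codes and values -/
def zl1_13 : List (ℕ × ℕ) :=
  [(0x3c002300c000800080008000400040, 7813831492672124833)]

/-- codes and values -/
def zl1_14 : List (ℕ × ℕ) :=
  [(0x3c003200c000c00080008000400000, 7813831492672124833)]

/-- codes and values -/
def zl1_15 : List (ℕ × ℕ) :=
  [(0x3e003100c000c00080008000800040, 7813831492672124833)]

/-- codes and values -/
def zl1_16 : List (ℕ × ℕ) :=
  [(0x38003800c000c000c0000000000000, 7813831492672124833)]

/-- codes and values -/
def zl1_17 : List (ℕ × ℕ) :=
  [(0x3c003800c000c000c0008000000000, 7813831492672124833)]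

/-- codes and values -/
def zl1_18 : List (ℕ × ℕ) :=
  [(0x3e003800c000c000c0008000800000, 7813831492672124833)]

/-- codes and values -/
def zl1_19 : List (ℕ × ℕ) :=
  [(0x3f003800c000c000c0008000800080, 7813831492672124833)]

/-- codes and values -/
def zl1_20 : List (ℕ × ℕ) :=
  [(0x4700b8004000400040008000800080, 7813831492672124833)]

/-- codes and values -/
def zl1_21 : List (ℕ × ℕ) :=
  [(0x33003c00c000c00040004000800080, 7813831492672124833)]

/-- codes and values -/
def zl1_22 : List (ℕ × ℕ) :=
  [(0x3a003c00c000c000c0004000800000, 7813831492672124833),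
    (0x3e003900c000c000c0008000800040, 7813831492672124833)]

/-- codes and values -/
def zl1_23 : List (ℕ × ℕ) :=
  [(0x3c003c00c000c000c000c000000000, 7813831492672124833)]

/-- codes and values -/
def zl1_24 : List (ℕ × ℕ) :=
  [(0x3e003c00c000c000c000c000800000, 7813831492672124833),
    (0x3f003c00c000c000c000c000800080, 7813831492672124833)]

/-- codes and values -/
def zl1_25 : List (ℕ × ℕ) :=
  [(0x3d003e00c000c000c000c000400080, 7813831492672124833),
    (0x3e003e00c000c000c000c000c00000, 7813831492672124833)]

/-- codes and values -/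
def zl1_26 : List (ℕ × ℕ) :=
  [(0x3f003e00c000c000c000c000c00080, 7813831492672124833),
    (0x3f003f00c000c000c000c000c000c0, 7813831492672124833)]

/-- codes and values -/
def zl1_27 : List (ℕ × ℕ) :=
  [(0x400080001000200004000800000000, 7807132625870251297)]

/-- codes and values -/
def zl1_28 : List (ℕ × ℕ) :=
  [(0x600080008000080010000200040000, 7811672672861803873)]

/-- codes and values -/
def zl1_29 : List (ℕ × ℕ) :=
  [(0x780084008000800080004000010002, 7813831492672124833)]

/-- codes and values -/
def zl1_30 : List (ℕ × ℕ) :=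
  [(0x700084008800800020004000000000, 7813005244660215361)]

/-- codes and values -/
def zl1_31 : List (ℕ × ℕ) :=
  [(0x780082008400800080002000400000, 7811969688249276385)]

/-- codes and values -/
def zl1_32 : List (ℕ × ℕ) :=
  [(0x7c0081008200800080008000200040, 7812639053801047009)]

/-- codes and values -/
def zl1_33 : List (ℕ × ℕ) :=
  [(0x600088009000200040000200040000, 7814991133801702081)]

/-- codes and values -/
def zl1_34 : List (ℕ × ℕ) :=
  [(0x680090008400420080002000100000, 7814109786450300217),
    (0x6c0090008200410080008000200010, 7813612716643357489)]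

/-- codes and values -/
def zl1_35 : List (ℕ × ℕ) :=
  [(0x5000a0005000a00004000800000000, 7813831492672124833)]

/-- codes and values -/
def zl1_36 : List (ℕ × ℕ) :=
  [(0x6c0090009000600080008000010002, 7813831492672124833),
    (0x6c0090009000600082008000080000, 7813859524259697217)]

/-- codes and values -/
def zl1_37 : List (ℕ × ℕ) :=
  [(0x6e0090009000600081008000800008, 7814255298982767073),
    (0x4c00b0004000400080008000010002, 7813831492672124833)]

/-- codes and values -/
def zl1_38 : List (ℕ × ℕ) :=
  [(0x70008c008200800040004000200000, 7813555373228468545),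
    (0x780086008100800080004000400020, 7813852314505969249)]

/-- codes and values -/
def zl1_39 : List (ℕ × ℕ) :=
  [(0x38002600c000810080004000400010, 7812344470517699185),
    (0x3c003200c000c00081008000400008, 7812652717048230433)]

/-- codes and values -/
def zl1_40 : List (ℕ × ℕ) :=
  [(0x38003800c000c000c0000200040000, 7813831492672124833),
    (0x3c003800c000c000c0008000010002, 7813831492672124833)]

/-- codes and values -/
def zl1_41 : List (ℕ × ℕ) :=
  [(0x3c003800c000c000c0008200040000, 7813831492672124833),
    (0x3e003800c000c000c0008100800004, 7813186026513173569)]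

/-- the types of this module -/
def zg1 : List ℕ :=
  fsts zl1_0 ++ (fsts zl1_1 ++ (fsts zl1_2 ++ (fsts zl1_3 ++ (fsts zl1_4 ++ (fsts zl1_5 ++ (fsts zl1_6 ++ (fsts zl1_7 ++ (fsts zl1_8 ++ (fsts zl1_9 ++ (fsts zl1_10 ++ (fsts zl1_11 ++ (fsts zl1_12 ++ (fsts zl1_13 ++ (fsts zl1_14 ++ (fsts zl1_15 ++ (fsts zl1_16 ++ (fsts zl1_17 ++ (fsts zl1_18 ++ (fsts zl1_19 ++ (fsts zl1_20 ++ (fsts zl1_21 ++ (fsts zl1_22 ++ (fsts zl1_23 ++ (fsts zl1_24 ++ (fsts zl1_25 ++ (fsts zl1_26 ++ (fsts zl1_27 ++ (fsts zl1_28 ++ (fsts zl1_29 ++ (fsts zl1_30 ++ (fsts zl1_31 ++ (fsts zl1_32 ++ (fsts zl1_33 ++ (fsts zl1_34 ++ (fsts zl1_35 ++ (fsts zl1_36 ++ (fsts zl1_37 ++ (fsts zl1_38 ++ (fsts zl1_39 ++ (fsts zl1_40 ++ (fsts zl1_41)))))))))))))))))))))))))))))))))))))))))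

theorem zok1 : ∀ c ∈ zg1, TPr c :=
  faa (ztr (by decide +kernel : zeroL 8 tb lo off zl1_0 = true))
    (faa (ztr (by decide +kernel : zeroL 8 tb lo off zl1_1 = true))
    (faa (ztr (by decide +kernel : zeroL 8 tb lo off zl1_2 = true))
    (faa (ztr (by decide +kernel : zeroL 8 tb lo off zl1_3 = true))
    (faa (ztr (by decide +kernel : zeroL 8 tb lo off zl1_4 = true))
    (faa (ztr (by decide +kernel : zeroL 8 tb lo off zl1_5 = true))
    (faa (ztr (by decide +kernel : zeroL 8 tb lo off zl1_6 = true))
    (faa (ztr (by decide +kernel : zeroL 8 tb lo off zl1_7 = true))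
    (faa (ztr (by decide +kernel : zeroL 8 tb lo off zl1_8 = true))
    (faa (ztr (by decide +kernel : zeroL 8 tb lo off zl1_9 = true))
    (faa (ztr (by decide +kernel : zeroL 8 tb lo off zl1_10 = true))
    (faa (ztr (by decide +kernel : zeroL 8 tb lo off zl1_11 = true))
    (faa (ztr (by decide +kernel : zeroL 8 tb lo off zl1_12 = true))
    (faa (ztr (by decide +kernel : zeroL 8 tb lo off zl1_13 = true))
    (faa (ztr (by decide +kernel : zeroL 8 tb lo off zl1_14 = true))
    (faa (ztr (by decide +kernel : zeroL 8 tb lo off zl1_15 = true))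
    (faa (ztr (by decide +kernel : zeroL 8 tb lo off zl1_16 = true))
    (faa (ztr (by decide +kernel : zeroL 8 tb lo off zl1_17 = true))
    (faa (ztr (by decide +kernel : zeroL 8 tb lo off zl1_18 = true))
    (faa (ztr (by decide +kernel : zeroL 8 tb lo off zl1_19 = true))
    (faa (ztr (by decide +kernel : zeroL 8 tb lo off zl1_20 = true))
    (faa (ztr (by decide +kernel : zeroL 8 tb lo off zl1_21 = true))
    (faa (ztr (by decide +kernel : zeroL 8 tb lo off zl1_22 = true))
    (faa (ztr (by decide +kernel : zeroL 8 tb lo off zl1_23 = true))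
    (faa (ztr (by decide +kernel : zeroL 8 tb lo off zl1_24 = true))
    (faa (ztr (by decide +kernel : zeroL 8 tb lo off zl1_25 = true))
    (faa (ztr (by decide +kernel : zeroL 8 tb lo off zl1_26 = true))
    (faa (ztr (by decide +kernel : zeroL 8 tb lo off zl1_27 = true))
    (faa (ztr (by decide +kernel : zeroL 8 tb lo off zl1_28 = true))
    (faa (ztr (by decide +kernel : zeroL 8 tb lo off zl1_29 = true))
    (faa (ztr (by decide +kernel : zeroL 8 tb lo off zl1_30 = true))
    (faa (ztr (by decide +kernel : zeroL 8 tb lo off zl1_31 = true))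
    (faa (ztr (by decide +kernel : zeroL 8 tb lo off zl1_32 = true))
    (faa (ztr (by decide +kernel : zeroL 8 tb lo off zl1_33 = true))
    (faa (ztr (by decide +kernel : zeroL 8 tb lo off zl1_34 = true))
    (faa (ztr (by decide +kernel : zeroL 8 tb lo off zl1_35 = true))
    (faa (ztr (by decide +kernel : zeroL 8 tb lo off zl1_36 = true))
    (faa (ztr (by decide +kernel : zeroL 8 tb lo off zl1_37 = true))
    (faa (ztr (by decide +kernel : zeroL 8 tb lo off zl1_38 = true))
    (faa (ztr (by decide +kernel : zeroL 8 tb lo off zl1_39 = true))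
    (faa (ztr (by decide +kernel : zeroL 8 tb lo off zl1_40 = true))
    ((ztr (by decide +kernel : zeroL 8 tb lo off zl1_41 = true)))))))))))))))))))))))))))))))))))))))))))

end Pool.Agent.ICyc.FlagH.K10
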