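import Pool.Agent.Lib.MP_131fce_co.FlagH.K10.Zd

/-!
# Types without a matrix, part 2
-/

set_option autoImplicit false
set_option maxRecDepth 100000

namespace Pool.Agent.ICyc.FlagH.K10

open Pool.Agent.ICyc.FlagH Pool.Agent.ICyc.Flag

/-- codes and values -/
def zl2_0 : List (ℕ × ℕ) :=
  [(0x5c00a2004100800080008000400020, 7813651332974222449),
    (0x4e00a0005000210080008000800010, 7813831492672124833)]

/-- codes and values -/
def zl2_1 : List (ℕ × ℕ) :=
  [(0x36003800c000c00041008000800008, 7813831492672124833),
    (0x3c003a00c000c000c0008100400004, 7813831492672124833)]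

/-- codes and values -/
def zl2_2 : List (ℕ × ℕ) :=
  [(0x3c003c00c000c000c000c000010002, 7813831492672124833),
    (0x3e003c00c000c000c000c000810002, 7813831492672124833)]

/-- codes and values -/
def zl2_3 : List (ℕ × ℕ) :=
  [(0x4800a0005000280090000000000000, 7812301897099481473)]

/-- codes and values -/
def zl2_4 : List (ℕ × ℕ) :=
  [(0x640088009000280050008000000000, 7811104729947555745)]

/-- codes and values -/
def zl2_5 : List (ℕ × ℕ) :=
  [(0x660088009000280050008000800000, 7813907455594976353),
    (0x670088009000280050008000800080, 7813176231676040641)]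

/-- codes and values -/
def zl2_6 : List (ℕ × ℕ) :=
  [(0x5400a8005000a00040008000000000, 7813549624309666849)]

/-- codes and values -/
def zl2_7 : List (ℕ × ℕ) :=
  [(0x6c0092009000600080008000400000, 7813807029256067281),
    (0x6e0091009000600080008000800040, 7812154194943628737)]

/-- codes and values -/
def zl2_8 : List (ℕ × ℕ) :=
  [(0x13002c005000a00040004000800080, 7813831492672124833),
    (0x2a003400c000480090004000800000, 7812958325773930849)]

/-- codes and values -/
def zl2_9 : List (ℕ × ℕ) :=
  [(0x36002900c000880050008000800040, 7813158827892515929),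
    (0x34003800c000c00044008800000000, 7813543010394550753)]

/-- codes and values -/
def zl2_10 : List (ℕ × ℕ) :=
  [(0x3a003400c000c00084004800800000, 7813322999418640177),
    (0x3b003400c000c00084004800800080, 7812852021756960193)]

/-- codes and values -/
def zl2_11 : List (ℕ × ℕ) :=
  [(0x700083008c00800020002000400040, 7813135250518862881),
    (0x680092009400600080002000400000, 7813686319540650721)]

/-- codes and values -/
def zl2_12 : List (ℕ × ℕ) :=
  [(0x5c00a2005100a00080008000400020, 7814157906621154465),
    (0x38003800c400c000c0002000000000, 7813831492672124833)]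

/-- codes and values -/
def zl2_13 : List (ℕ × ℕ) :=
  [(0x3c003800c200c000c0008000200000, 7813516678151112433),
    (0x3e003800c100c000c0008000800020, 7813533302501908321)]

/-- codes and values -/
def zl2_14 : List (ℕ × ℕ) :=
  [(0x5300ac005000a00040004000800080, 7811457763161509281),
    (0x35003a00c000c00044008800400080, 7811734409820650017)]

/-- codes and values -/
def zl2_15 : List (ℕ × ℕ) :=
  [(0x3a003c00c000c000c0004200840000, 7811465339664605665),
    (0x3d003a00c000c000c0008200440080, 7811275160980716553),
    (0x3a003c00c100c000c0004000800020, 7812292958921289889)]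

/-- codes and values -/
def zl2_16 : List (ℕ × ℕ) :=
  [(0x3c003c00c200c000c000c000200000, 7813831492672124833),
    (0x3e003c00c100c000c000c000800020, 7812614043101402065),
    (0x3d003e00c000c000c000c000410082, 7811808922216485793)]

/-- codes and values -/
def zl2_17 : List (ℕ × ℕ) :=
  [(0x3e003e00c100c000c000c000c00020, 7813831492672124833),
    (0x640088009000210042008000080010, 7813107976840617745),
    (0x720084008800880030004100800004, 7811782909131595825)]

/-- codes and values -/
def zl2_18 : List (ℕ × ℕ) :=
  [(0x780082008200840084001800600000, 7813831492672124833),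
    (0x790082008200840084001800600080, 7810620745281198625)]

/-- codes and values -/
def zl2_19 : List (ℕ × ℕ) :=
  [(0x680086009000210080004000400010, 7815738083135639761),
    (0x700086008800880030004000400000, 7813831492672124833)]

/-- codes and values -/
def zl2_20 : List (ℕ × ℕ) :=
  [(0x740083008800880030008000400040, 7815565690534863361),
    (0x70028005000280050008000800080, 7813831492672124833)]

/-- codes and values -/
def zl2_21 : List (ℕ × ℕ) :=
  [(0x38002300c000840084001800400040, 7813831492672124833),
    (0x3c003100c000c000820082000c0040, 7813831492672124833),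
    (0x38003800c000c000c0000300040004, 7813831492672124833)]

/-- codes and values -/
def zl2_22 : List (ℕ × ℕ) :=
  [(0x3c003800c000c000c0008200050002, 7813831492672124833),
    (0x3e003800c000c000c0008100810006, 7813831492672124833),
    (0x38001c008300c000c0004000200020, 7813831492672124833)]

/-- codes and values -/
def zl2_23 : List (ℕ × ℕ) :=
  [(0x3c001c008300c000c000c000200020, 7813831492672124833),
    (0x4700b0004800480030008000800080, 7813831492672124833)]

/-- codes and values -/
def zl2_24 : List (ℕ × ℕ) :=
  [(0x4400a0005000280014008800000000, 7812069586196715361),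
    (0x620088009000240044001800800000, 7816982298214732273)]

/-- codes and values -/
def zl2_25 : List (ℕ × ℕ) :=
  [(0x630088009000240044001800800080, 7813375729638903361),
    (0x5200a4004800880030004000800000, 7814563727731222753)]

/-- codes and values -/
def zl2_26 : List (ℕ × ℕ) :=
  [(0x660091008800480030008000800040, 7813982687505487417),
    (0x6c0091009200600080008000200040, 7813923955357916161)]

/-- codes and values -/
def zl2_27 : List (ℕ × ℕ) :=
  [(0x700082008400880010002000400000, 7812366767811076609),
    (0x70008c008100820040004000100020, 7812788984704781857)]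

/-- codes and values -/
def zl2_28 : List (ℕ × ℕ) :=
  [(0x680094009000600082004000080000, 7812319124967081193),
    (0x660098009000600041008000800008, 7813775459660582161)]

/-- codes and values -/
def zl2_29 : List (ℕ × ℕ) :=
  [(0x5400a8005000a00044008800000000, 7811472468615909409),
    (0x72008c008400880050006000800000, 7814136528985012129)]

/-- codes and values -/
def zl2_30 : List (ℕ × ℕ) :=
  [(0x73008c008400880050006000800080, 7813568588506986241),
    (0x29003200c000440084001800400080, 7812634901864338801),
    (0x34003800c000c000420082000c0000, 7811045908779294433)]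

/-- codes and values -/
def zl2_31 : List (ℕ × ℕ) :=
  [(0x39003400c000c000820042000c0080, 7813157550559867873),
    (0x4a00940019006000a0004000800020, 7815921323498512993),
    (0x2c001c0092006000c000c000200000, 7812962705523586465)]

/-- codes and values -/
def zl2_32 : List (ℕ × ℕ) :=
  [(0x3a001c008500c000c0006000800020, 7813836484571722033),
    (0x70008c008300880050004000200020, 7810125071314390993),
    (0x680092009400600081002000400008, 7813594391619799009)]

/-- codes and values -/
def zl2_33 : List (ℕ × ℕ) :=
  [(0x680094009200600084004800200000, 7812569044148350681),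
    (0x5a00a4005100a00084004800800020, 7814249422614133993),
    (0x640098009800600060008200040000, 7813831492672124833)]

/-- codes and values -/
def zl2_34 : List (ℕ × ℕ) :=
  [(0x5a00a4005800a000a0004100800004, 7813339761042016849),
    (0x5c00a2005800a000a0008200440000, 7814509539370575553),
    (0x5d00a2005800a000a0008200440080, 7814129963036424049)]

/-- codes and values -/
def zl2_35 : List (ℕ × ℕ) :=
  [(0x3a003c00c000c000c0004100810006, 7811813609498403361),
    (0x1e002c005100a000c000c000800020, 7814158583658396337),
    (0x3c001e008300c000c000c000600020, 7811356160170893457)]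

/-- codes and values -/
def zl2_36 : List (ℕ × ℕ) :=
  [(0x5300a8005400a00044002800800080, 7812827513728283953),
    (0x3c003900c200c000c0008200240040, 7812658220908228561),
    (0x3c003c00c200c000c000c000210002, 7813831492672124833)]

/-- codes and values -/
def zl2_37 : List (ℕ × ℕ) :=
  [(0x3e003c00c100c000c000c000810022, 7812395256026205937)]

/-- the types of this module -/
def zg2 : List ℕ :=
  fsts zl2_0 ++ (fsts zl2_1 ++ (fsts zl2_2 ++ (fsts zl2_3 ++ (fsts zl2_4 ++ (fsts zl2_5 ++ (fsts zl2_6 ++ (fsts zl2_7 ++ (fsts zl2_8 ++ (fsts zl2_9 ++ (fsts zl2_10 ++ (fsts zl2_11 ++ (fsts zl2_12 ++ (fsts zl2_13 ++ (fsts zl2_14 ++ (fsts zl2_15 ++ (fsts zl2_16 ++ (fsts zl2_17 ++ (fsts zl2_18 ++ (fsts zl2_19 ++ (fsts zl2_20 ++ (fsts zl2_21 ++ (fsts zl2_22 ++ (fsts zl2_23 ++ (fsts zl2_24 ++ (fsts zl2_25 ++ (fsts zl2_26 ++ (fsts zl2_27 ++ (fsts zl2_28 ++ (fsts zl2_29 ++ (fsts zl2_30 ++ (fsts zl2_31 ++ (fsts zl2_32 ++ (fsts zl2_33 ++ (fsts zl2_34 ++ (fsts zl2_35 ++ (fsts zl2_36 ++ (fsts zl2_37)))))))))))))))))))))))))))))))))))))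

theorem zok2 : ∀ c ∈ zg2, TPr c :=
  faa (ztr (by decide +kernel : zeroL 8 tb lo off zl2_0 = true))
    (faa (ztr (by decide +kernel : zeroL 8 tb lo off zl2_1 = true))
    (faa (ztr (by decide +kernel : zeroL 8 tb lo off zl2_2 = true))
    (faa (ztr (by decide +kernel : zeroL 8 tb lo off zl2_3 = true))
    (faa (ztr (by decide +kernel : zeroL 8 tb lo off zl2_4 = true))
    (faa (ztr (by decide +kernel : zeroL 8 tb lo off zl2_5 = true))
    (faa (ztr (by decide +kernel : zeroL 8 tb lo off zl2_6 = true))
    (faa (ztr (by decide +kernel : zeroL 8 tb lo off zl2_7 = true))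
    (faa (ztr (by decide +kernel : zeroL 8 tb lo off zl2_8 = true))
    (faa (ztr (by decide +kernel : zeroL 8 tb lo off zl2_9 = true))
    (faa (ztr (by decide +kernel : zeroL 8 tb lo off zl2_10 = true))
    (faa (ztr (by decide +kernel : zeroL 8 tb lo off zl2_11 = true))
    (faa (ztr (by decide +kernel : zeroL 8 tb lo off zl2_12 = true))
    (faa (ztr (by decide +kernel : zeroL 8 tb lo off zl2_13 = true))
    (faa (ztr (by decide +kernel : zeroL 8 tb lo off zl2_14 = true))
    (faa (ztr (by decide +kernel : zeroL 8 tb lo off zl2_15 = true))
    (faa (ztr (by decide +kernel : zeroL 8 tb lo off zl2_16 = true))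
    (faa (ztr (by decide +kernel : zeroL 8 tb lo off zl2_17 = true))
    (faa (ztr (by decide +kernel : zeroL 8 tb lo off zl2_18 = true))
    (faa (ztr (by decide +kernel : zeroL 8 tb lo off zl2_19 = true))
    (faa (ztr (by decide +kernel : zeroL 8 tb lo off zl2_20 = true))
    (faa (ztr (by decide +kernel : zeroL 8 tb lo off zl2_21 = true))
    (faa (ztr (by decide +kernel : zeroL 8 tb lo off zl2_22 = true))
    (faa (ztr (by decide +kernel : zeroL 8 tb lo off zl2_23 = true))
    (faa (ztr (by decide +kernel : zeroL 8 tb lo off zl2_24 = true))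
    (faa (ztr (by decide +kernel : zeroL 8 tb lo off zl2_25 = true))
    (faa (ztr (by decide +kernel : zeroL 8 tb lo off zl2_26 = true))
    (faa (ztr (by decide +kernel : zeroL 8 tb lo off zl2_27 = true))
    (faa (ztr (by decide +kernel : zeroL 8 tb lo off zl2_28 = true))
    (faa (ztr (by decide +kernel : zeroL 8 tb lo off zl2_29 = true))
    (faa (ztr (by decide +kernel : zeroL 8 tb lo off zl2_30 = true))
    (faa (ztr (by decide +kernel : zeroL 8 tb lo off zl2_31 = true))
    (faa (ztr (by decide +kernel : zeroL 8 tb lo off zl2_32 = true))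
    (faa (ztr (by decide +kernel : zeroL 8 tb lo off zl2_33 = true))
    (faa (ztr (by decide +kernel : zeroL 8 tb lo off zl2_34 = true))
    (faa (ztr (by decide +kernel : zeroL 8 tb lo off zl2_35 = true))
    (faa (ztr (by decide +kernel : zeroL 8 tb lo off zl2_36 = true))
    ((ztr (by decide +kernel : zeroL 8 tb lo off zl2_37 = true)))))))))))))))))))))))))))))))))))))))

end Pool.Agent.ICyc.FlagH.K10
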