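import Pool.Agent.Lib.MP_131fce_co.Flag.Reps8
import Pool.Agent.Lib.MP_131fce_co.FlagH.K10.ClsU
import Pool.Agent.Lib.MP_131fce_co.FlagH.K10.Ty0
import Pool.Agent.Lib.MP_131fce_co.FlagH.K10.Ty1
import Pool.Agent.Lib.MP_131fce_co.FlagH.K10.Ty2
import Pool.Agent.Lib.MP_131fce_co.FlagH.K10.Ty3
import Pool.Agent.Lib.MP_131fce_co.FlagH.K10.Ty4
import Pool.Agent.Lib.MP_131fce_co.FlagH.K10.Ty5
import Pool.Agent.Lib.MP_131fce_co.FlagH.K10.Ty6
import Pool.Agent.Lib.MP_131fce_co.FlagH.K10.Ty7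
import Pool.Agent.Lib.MP_131fce_co.FlagH.K10.Tz0
import Pool.Agent.Lib.MP_131fce_co.FlagH.K10.Tz1
import Pool.Agent.Lib.MP_131fce_co.FlagH.K10.Tz2
import Pool.Agent.Lib.MP_131fce_co.FlagH.K10.Tz3
import Pool.Agent.Lib.MP_131fce_co.FlagH.K10.Tz4
import Pool.Agent.Lib.MP_131fce_co.FlagH.K10.Ho0
import Pool.Agent.Lib.MP_131fce_co.FlagH.K10.Ho1
import Pool.Agent.Lib.MP_131fce_co.FlagH.K10.Ho2
import Pool.Agent.Lib.MP_131fce_co.FlagH.K10.Ho3
import Pool.Agent.Lib.MP_131fce_co.FlagH.K10.Ho4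
import Pool.Agent.Lib.MP_131fce_co.FlagH.K10.Ho5
import Pool.Agent.Lib.MP_131fce_co.FlagH.K10.Ho6
import Pool.Agent.Lib.MP_131fce_co.FlagH.K10.Ho7
import Pool.Agent.Lib.MP_131fce_co.FlagH.K10.LoGood

/-!
# The bound for `k = 10`
-/

set_option autoImplicit false
set_option maxRecDepth 100000

namespace Pool.Agent.ICyc.FlagH.K10

open Pool.Agent.ICyc.FlagH Pool.Agent.ICyc.Flag

/-- codes of all types -/
def allT : List ℕ :=
  tc0 ++ (tc1 ++ (tc2 ++ (tc3 ++ (tc4 ++ (tc5 ++ (tc6 ++ (tc7 ++ (zg0 ++ (zg1 ++ (zg2 ++ (zg3 ++ (zg4))))))))))))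

theorem all_ok : ∀ c ∈ allT, TPr c :=
  faa tok0
    (faa tok1
    (faa tok2
    (faa tok3
    (faa tok4
    (faa tok5
    (faa tok6
    (faa tok7
    (faa zok0
    (faa zok1
    (faa zok2
    (faa zok3
    (zok4))))))))))))

theorem sub_types : ∀ c ∈ reps8, c ∈ allT := subB_mem _ _ (by decide +kernel)

theorem types_ok : ∀ c ∈ reps8, TypeProp 8 c (fT tb off) (vlow 8 lo c) :=
  fun c hc => all_ok c (sub_types c hc) (okin c hc)

theorem hosts_all : ∀ i, 0 ≤ i → i < 1897 → HP 9 tb cy kk uu i :=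
  glue hn0
  (glue hn1
  (glue hn2
  (glue hn3
  (glue hn4
  (glue hn5
  (glue hn6
  (hn7)))))))

/-- triangle-free graphs have at most `(n / 10) ^ 10` induced cycles of length `10` -/
theorem bound10 (V : Type) [Fintype V] (G : SimpleGraph V) (hA : AdjOK (adjG G)) :
    (({S : Finset V | S.card = 10 ∧
          Nonempty (G.induce (S : Set V) ≃g SimpleGraph.cycleGraph 10)}.ncard : ℝ)
        ≤ ((Fintype.card V : ℝ) / ((10 : ℕ) : ℝ)) ^ 10) := by
  have e1 : pathTrie (14400000000 * (8 + 2) ^ (8 + 1)) [0, 1, 1, 1, 1, 1, 1, 1, 1, 257] = cy :=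
    congrArg (fun w => pathTrie w [0, 1, 1, 1, 1, 1, 1, 1, 1, 257])
      (by norm_num : 14400000000 * (8 + 2) ^ (8 + 1) = 14400000000000000000)
  have e2 : 2 * 14400000000 * (8 + 2).factorial + (8 + 1 + 1) * (8 + 1) * off = kk := by decide +kernel
  refine final_boundH 8 (by norm_num) (by norm_num) G hA 14400000000 (by norm_num) (by norm_num)
    [0, 1, 1, 1, 1, 1, 1, 1, 1, 257] (by decide +kernel) (cls8 hA) (clsU hA) (inT_hosts hosts_all).1 (T := tb) (T8 := lo)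
    (OFF := off) (by rw [e1]; decide +kernel) (by decide +kernel) lo_good types_ok ?_
  rw [e1, e2]
  exact (inT_hosts hosts_all).2

end Pool.Agent.ICyc.FlagH.K10
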