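import Pool.Agent.Lib.MP_131fce_co.FlagH.K10.Cy
import Pool.Agent.Lib.MP_131fce_co.FlagH.K10.TabU
import Pool.Agent.Lib.MP_131fce_co.FlagH.ClsW

/-!
# Hosts, part 4
-/

set_option autoImplicit false
set_option maxRecDepth 100000

namespace Pool.Agent.ICyc.FlagH.K10

open Pool.Agent.ICyc.FlagH Pool.Agent.ICyc.Flag

theorem hn4_0 : ∀ i, 1018 ≤ i → i < 1039 → HP 9 tb cy kk uu i :=
  glue (hostR_rng (by decide +kernel : hostR 9 tb cy kk uu 1018 1 = true) rfl)
  (glue (hostR_rng (by decide +kernel : hostR 9 tb cy kk uu 1019 1 = true) rfl)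
  (glue (hostR_rng (by decide +kernel : hostR 9 tb cy kk uu 1020 1 = true) rfl)
  (glue (hostR_rng (by decide +kernel : hostR 9 tb cy kk uu 1021 1 = true) rfl)
  (glue (hostR_rng (by decide +kernel : hostR 9 tb cy kk uu 1022 1 = true) rfl)
  (glue (hostR_rng (by decide +kernel : hostR 9 tb cy kk uu 1023 1 = true) rfl)
  (glue (hostR_rng (by decide +kernel : hostR 9 tb cy kk uu 1024 1 = true) rfl)
  (glue (hostR_rng (by decide +kernel : hostR 9 tb cy kk uu 1025 1 = true) rfl)
  (glue (hostR_rng (by decide +kernel : hostR 9 tb cy kk uu 1026 1 = true) rfl)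
  (glue (hostR_rng (by decide +kernel : hostR 9 tb cy kk uu 1027 1 = true) rfl)
  (glue (hostR_rng (by decide +kernel : hostR 9 tb cy kk uu 1028 1 = true) rfl)
  (glue (hostR_rng (by decide +kernel : hostR 9 tb cy kk uu 1029 1 = true) rfl)
  (glue (hostR_rng (by decide +kernel : hostR 9 tb cy kk uu 1030 1 = true) rfl)
  (glue (hostR_rng (by decide +kernel : hostR 9 tb cy kk uu 1031 1 = true) rfl)
  (glue (hostR_rng (by decide +kernel : hostR 9 tb cy kk uu 1032 1 = true) rfl)
  (glue (hostR_rng (by decide +kernel : hostR 9 tb cy kk uu 1033 1 = true) rfl)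
  (glue (hostR_rng (by decide +kernel : hostR 9 tb cy kk uu 1034 2 = true) rfl)
  (glue (hostR_rng (by decide +kernel : hostR 9 tb cy kk uu 1036 1 = true) rfl)
  (glue (hostR_rng (by decide +kernel : hostR 9 tb cy kk uu 1037 1 = true) rfl)
  (hostR_rng (by decide +kernel : hostR 9 tb cy kk uu 1038 1 = true) rfl)))))))))))))))))))

theorem hn4_1 : ∀ i, 1018 ≤ i → i < 1093 → HP 9 tb cy kk uu i :=
  glue hn4_0
  (glue (hostR_rng (by decide +kernel : hostR 9 tb cy kk uu 1039 1 = true) rfl)
  (glue (hostR_rng (by decide +kernel : hostR 9 tb cy kk uu 1040 1 = true) rfl)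
  (glue (hostR_rng (by decide +kernel : hostR 9 tb cy kk uu 1041 1 = true) rfl)
  (glue (hostR_rng (by decide +kernel : hostR 9 tb cy kk uu 1042 1 = true) rfl)
  (glue (hostR_rng (by decide +kernel : hostR 9 tb cy kk uu 1043 1 = true) rfl)
  (glue (hostR_rng (by decide +kernel : hostR 9 tb cy kk uu 1044 2 = true) rfl)
  (glue (hostR_rng (by decide +kernel : hostR 9 tb cy kk uu 1046 1 = true) rfl)
  (glue (hostR_rng (by decide +kernel : hostR 9 tb cy kk uu 1047 1 = true) rfl)
  (glue (hostR_rng (by decide +kernel : hostR 9 tb cy kk uu 1048 1 = true) rfl)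
  (glue (hostR_rng (by decide +kernel : hostR 9 tb cy kk uu 1049 1 = true) rfl)
  (glue (hostR_rng (by decide +kernel : hostR 9 tb cy kk uu 1050 1 = true) rfl)
  (glue (hostR_rng (by decide +kernel : hostR 9 tb cy kk uu 1051 1 = true) rfl)
  (glue (hostR_rng (by decide +kernel : hostR 9 tb cy kk uu 1052 1 = true) rfl)
  (glue (hostR_rng (by decide +kernel : hostR 9 tb cy kk uu 1053 2 = true) rfl)
  (glue (hostR_rng (by decide +kernel : hostR 9 tb cy kk uu 1055 2 = true) rfl)
  (glue (hostR_rng (by decide +kernel : hostR 9 tb cy kk uu 1057 4 = true) rfl)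
  (glue (hostR_rng (by decide +kernel : hostR 9 tb cy kk uu 1061 4 = true) rfl)
  (glue (hostR_rng (by decide +kernel : hostR 9 tb cy kk uu 1065 5 = true) rfl)
  (glue (hostR_rng (by decide +kernel : hostR 9 tb cy kk uu 1070 11 = true) rfl)
  (hostR_rng (by decide +kernel : hostR 9 tb cy kk uu 1081 12 = true) rfl))))))))))))))))))))

theorem hn4 : ∀ i, 1018 ≤ i → i < 1123 → HP 9 tb cy kk uu i :=
  glue hn4_1
  (glue (hostR_rng (by decide +kernel : hostR 9 tb cy kk uu 1093 2 = true) rfl)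
  (glue (hostR_rng (by decide +kernel : hostR 9 tb cy kk uu 1095 2 = true) rfl)
  (glue (hostR_rng (by decide +kernel : hostR 9 tb cy kk uu 1097 2 = true) rfl)
  (glue (hostR_rng (by decide +kernel : hostR 9 tb cy kk uu 1099 5 = true) rfl)
  (glue (hostR_rng (by decide +kernel : hostR 9 tb cy kk uu 1104 7 = true) rfl)
  (glue (hostR_rng (by decide +kernel : hostR 9 tb cy kk uu 1111 8 = true) rfl)
  (hostR_rng (by decide +kernel : hostR 9 tb cy kk uu 1119 4 = true) rfl)))))))

end Pool.Agent.ICyc.FlagH.K10
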