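import Pool.Agent.Lib.MP_131fce_co.FlagH.K10.Tab
import Pool.Agent.Lib.MP_131fce_co.FlagH.K10.Lo
import Pool.Agent.Lib.MP_131fce_co.FlagH.KDefs

/-!
# Parameters
-/

set_option autoImplicit false
set_option maxRecDepth 100000

namespace Pool.Agent.ICyc.FlagH.K10

open Pool.Agent.ICyc.FlagH Pool.Agent.ICyc.Flag

/-- offset of the table -/
def off : ℕ := 7812670276672124833

/-- bound -/
def kk : ℕ := 703244834340491234970

end Pool.Agent.ICyc.FlagH.K10
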