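import Pool.Agent.Lib.MP_131fce_co.FlagH.K10.TabA0
import Pool.Agent.Lib.MP_131fce_co.FlagH.K10.TabA1
import Pool.Agent.Lib.MP_131fce_co.FlagH.K10.TabA2
import Pool.Agent.Lib.MP_131fce_co.FlagH.K10.TabB0

/-!
# The table
-/

set_option autoImplicit false

namespace Pool.Agent.ICyc.FlagH.K10

open Pool.Agent.ICyc.FlagH

/-- the table of indices -/
def tabA : FT := (.node 533736449012 tabA_0 (.node 1058331120449 tabA_1 tabA_2))

/-- the table of values -/
def tabB : FT := tabB_0

/-- the table -/
def tb : FT := .comp tabA tabB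

end Pool.Agent.ICyc.FlagH.K10
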