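import Pool.Agent.Lib.MP_131fce_co.FlagH.K10.Par
import Pool.Agent.Lib.MP_131fce_co.FlagH.Fin

/-!
# The property of the types
-/

set_option autoImplicit false
set_option maxRecDepth 100000

namespace Pool.Agent.ICyc.FlagH.K10

open Pool.Agent.ICyc.FlagH Pool.Agent.ICyc.Flag

/-- the property of the types -/
def TPr (c : ℕ) : Prop := OkM 8 c → TypeProp 8 c (fT tb off) (vlow 8 lo c)

theorem faa {P : ℕ → Prop} {A B : List ℕ} (h1 : ∀ c ∈ A, P c) (h2 : ∀ c ∈ B, P c) :
    ∀ c ∈ A ++ B, P c :=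
  fun c hc => (List.mem_append.mp hc).elim (h1 c) (h2 c)

theorem ztr {L : List (ℕ × ℕ)} (hz : zeroL 8 tb lo off L = true) : ∀ c ∈ fsts L, TPr c :=
  fun _ hc h => zero_types (by norm_num) hz h hc

theorem ttr {c : ℕ} {t : Cert} (hz : type1 8 tb lo off c t = true) : TPr c :=
  fun h => type1_sound (by norm_num) h hz

end Pool.Agent.ICyc.FlagH.K10
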